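import Pool.Agent.K7.H16.Gd.Final

/-!
# Unions of two Hamilton circuits: at most one cut-vertex, and it can be prescribed
-/

set_option autoImplicit false

namespace Pool.Agent.Results.MP_1fb45e_co.OneCutVertex

open Goddyn

/-- Let `H` be a 3-connected 4-regular graph with an edge-decomposition into two Hamilton circuits
`C₁`, `C₂`. For every vertex `x` there is an alternating circuit `D` such that no vertex other
than `x` is a cut-vertex of `H - E(D)`. -/
theorem result {V : Type*} [Finite V] (H : SimpleGraph V) (C₁ C₂ : H.Subgraph)
    (h : IsHamiltonPair H C₁ C₂) (h3 : IsThreeConnected H) (x : V) :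
    ∃ D, IsAlternating C₁ C₂ D ∧
      ∀ z, z ≠ x → ¬ IsCutVertex (H.deleteEdges D.edgeSet) z := by
  classical
  have : Fintype V := Fintype.ofFinite V
  exact Gd16.one_cut_vertex h h3 x

end Pool.Agent.Results.MP_1fb45e_co.OneCutVertex
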