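import Pool.Agent.K7.H16.Gd.Final

/-!
# Unions of two Hamilton circuits: the alternating cycle sums of a 3-connected counterexample
-/

set_option autoImplicit false

namespace Pool.Agent.Results.MP_1fb45e_co.SumConditions

open Goddyn Contra2 Gd16

/-- Let `H` be a 3-connected 4-regular graph with an edge-decomposition into two Hamilton circuits
`C₁`, `C₂`, with successor maps `s true`, `s false`. If `H - E(D)` has a cut-vertex for every
alternating circuit `D`, then `|V(H)| ≡ 1 (mod 4)`, the number of 3-sets `U` with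
`ncyc (theta s U) = 1` is congruent to `(|V(H)| - 1) / 4` modulo 4, the alternating cycle sum
`∑ U, 2 ^ |U| * (-2) ^ ncyc (theta s U)` is zero, and for every vertex `x` its part over the
sets `U` avoiding `x` equals `2 * (3 ^ b - 3 ^ a)` for an even `a ≥ 2` and an odd `b` with
`2 * a < |V(H)|` and `2 * b < |V(H)|`. -/
theorem result {V : Type*} [Fintype V] [DecidableEq V] (H : SimpleGraph V) (C₁ C₂ : H.Subgraph)
    (h : IsHamiltonPair H C₁ C₂) (h3 : IsThreeConnected H)
    (hno : ∀ D, IsAlternating C₁ C₂ D → ∃ z, IsCutVertex (H.deleteEdges D.edgeSet) z)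
    (s : Bool → Equiv.Perm V) (h1 : IsSuccessor C₁ (s true)) (h2 : IsSuccessor C₂ (s false)) :
    Fintype.card V % 4 = 1 ∧
      (Finset.univ.filter (fun U : Finset V => U.card = 3 ∧ ncyc (theta s U) = 1)).card % 4 =
          (Fintype.card V / 4) % 4 ∧
      ∑ U : Finset V, 2 ^ U.card * (-2 : ℤ) ^ ncyc (theta s U) = 0 ∧
      ∀ x, ∃ a b : ℕ, Even a ∧ 2 ≤ a ∧ Odd b ∧ 2 * a < Fintype.card V ∧
        2 * b < Fintype.card V ∧
        ∑ U ∈ Finset.univ.filter (fun U : Finset V => x ∉ U),
          2 ^ U.card * (-2 : ℤ) ^ ncyc (theta s U) = 2 * (3 ^ b - 3 ^ a) :=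
  sum_conditions h h3 hno h1 h2

end Pool.Agent.Results.MP_1fb45e_co.SumConditions
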